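import Pool.Agent.Helper45.AM.GoalsA
import Pool.Agent.Helper15.RA.GoalsH

/-!
# Packet AM-AM (MP_cc6379_al): mirror images.
-/

set_option autoImplicit false

open LaurentPolynomial Pool.Agent.Helper15.RA Pool.Agent.Helper45.AM

namespace Pool.Agent.Helper87.AM

theorem repr_inv {W R H : Type} [Group W] [CommRing R] [AddCommGroup H] [Module R H]
    (b : Module.Basis W R H) (F : H →ₗ[R] H) (hF : ∀ w, F (b w) = b w⁻¹) (Z : H) (w : W) :
    b.repr (F Z) w = b.repr Z w⁻¹ := by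
  have h : (b.coord w) ∘ₗ F = b.coord w⁻¹ := by
    refine b.ext fun u => ?_
    rw [LinearMap.comp_apply, hF, Module.Basis.coord_apply, Module.Basis.coord_apply,
      b.repr_self, b.repr_self]
    by_cases huw : u = w⁻¹
    · subst huw
      rw [inv_inv, Finsupp.single_eq_same, Finsupp.single_eq_same]
    · have h2 : u⁻¹ ≠ w := fun h => huw (by rw [← h, inv_inv])
      rw [Finsupp.single_eq_of_ne' h2, Finsupp.single_eq_of_ne' huw]
  exact LinearMap.congr_fun h Z

theorem xl_xr {S W : Type} [Group W] {M : CoxeterMatrix S} (cs : CoxeterSystem M W) (P : Set S)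
    (y : W) : XL cs P y ↔ XR cs P y⁻¹ := by
  unfold XL XR
  refine forall₂_congr fun i _ => ?_
  rw [← cs.length_inv (cs.simple i * y), mul_inv_rev, cs.inv_simple, ← cs.length_inv y]

theorem h_a_m (hV : H_V) : A_M := by
  intro S W H _ _ _ X
  obtain ⟨⟨F, f1, f2, f3⟩, _, h3⟩ := hV S W H X.M X.cs X.L X.wt X.D
  have h4 := h3 X.h X.isH
  have hRL : ∀ P z w, X.leR P z w → X.leL P z⁻¹ w⁻¹ := by
    intro P z w h
    refine Relation.ReflTransGen.lift (fun a : W => a⁻¹) ?_ _ _ h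
    rintro a b ⟨u, hu, hne⟩
    exact ⟨u⁻¹, inv_mem hu, by rw [← h4]; exact hne⟩
  have hLR : ∀ P z w, X.leL P z w → X.leR P z⁻¹ w⁻¹ := by
    intro P z w h
    refine Relation.ReflTransGen.lift (fun a : W => a⁻¹) ?_ _ _ h
    rintro a b ⟨u, hu, hne⟩
    exact ⟨u⁻¹, inv_mem hu, by rw [← h4]; exact hne⟩
  refine ⟨⟨F, f1, f2, f3, repr_inv X.D.t F f1, repr_inv X.b F fun w => ?_⟩, h4, xl_xr X.cs, ?_,
    ?_, ?_⟩
  · rw [X.hb, X.hb, f3]
  · intro P y
    rw [xl_xr, inv_inv]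
  · intro P z w
    refine ⟨hRL P z w, fun h => ?_⟩
    have := hLR P _ _ h
    rwa [inv_inv, inv_inv] at this
  · intro P z w
    refine ⟨hLR P z w, fun h => ?_⟩
    have := hRL P _ _ h
    rwa [inv_inv, inv_inv] at this

end Pool.Agent.Helper87.AM
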