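import Pool.Agent.Helper15.AM.GoalsG

/-!
# Packet AM-GPC (MP_cc6379_al): parabolic subgroups: uniqueness, transitivity, mirror images.
-/

set_option autoImplicit false

open Pool.Agent.Helper15.RA Pool.Agent.Helper45.AM Pool.Agent.Helper15.AM

namespace Pool.Agent.Helper87.AM

section

variable {S W : Type} [Group W] {M : CoxeterMatrix S} (cs : CoxeterSystem M W)

theorem simple_mem {P : Set S} {i : S} (hi : i ∈ P) : cs.simple i ∈ par cs P :=
  Subgroup.subset_closure ⟨i, hi, rfl⟩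

theorem par_mono {P Q : Set S} (h : P ⊆ Q) : par cs P ≤ par cs Q :=
  Subgroup.closure_mono (Set.image_mono h)

theorem xl_iff (P : Set S) (y : W) : XL cs P y ↔ XR cs P y⁻¹ := by
  unfold XL XR
  refine forall₂_congr fun i _ => ?_
  rw [← cs.length_inv (cs.simple i * y), mul_inv_rev, cs.inv_simple, ← cs.length_inv y]

theorem uniq (hPA : G_PA) (P : Set S) {x x' g g' : W} (hx : XR cs P x) (hx' : XR cs P x')
    (hg : g ∈ par cs P) (hg' : g' ∈ par cs P) (h : x * g = x' * g') : x = x' ∧ g = g' := by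
  obtain ⟨_, _, h3⟩ := hPA S W M cs P
  have e1 : x' = x * (g * g'⁻¹) := by
    rw [← mul_assoc, h, mul_assoc, mul_inv_cancel, mul_one]
  have e2 : x = x' * (g' * g⁻¹) := by
    rw [← mul_assoc, ← h, mul_assoc, mul_inv_cancel, mul_one]
  have l1 := h3 x hx (g * g'⁻¹) (mul_mem hg (inv_mem hg'))
  have l2 := h3 x' hx' (g' * g⁻¹) (mul_mem hg' (inv_mem hg))
  rw [← e1] at l1
  rw [← e2] at l2
  have l3 : cs.length (g * g'⁻¹) = 0 := by omega
  rw [cs.length_eq_zero_iff] at l3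
  have e3 : g = g' := by
    rw [mul_inv_eq_one] at l3
    exact l3
  subst e3
  exact ⟨mul_right_cancel h, rfl⟩

theorem trans (hPA : G_PA) {P Q : Set S} {x z : W} (hPQ : P ⊆ Q) (hx : XR cs Q x)
    (hz : z ∈ par cs Q) (hz' : XR cs P z) : XR cs P (x * z) := by
  obtain ⟨_, _, h3⟩ := hPA S W M cs Q
  intro i hi
  rw [mul_assoc, h3 x hx _ (mul_mem hz (simple_mem cs (hPQ hi))), h3 x hx z hz, hz' i hi, add_assoc]

end

theorem h_gpc (hPA : G_PA) : G_PC := by
  intro S W _ M cs P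
  obtain ⟨h1, h2, h3⟩ := hPA S W M cs P
  refine ⟨fun x x' g g' hx hx' hg hg' h => uniq cs hPA P hx hx' hg hg' h,
    fun Q x z hPQ hx hz hz' => trans cs hPA hPQ hx hz hz', xl_iff cs P, ?_, ?_, ?_, ?_⟩
  · intro w
    obtain ⟨x, g, hg, hx, e⟩ := h2 w⁻¹
    refine ⟨g⁻¹, inv_mem hg, x⁻¹, ?_, ?_⟩
    · rw [xl_iff, inv_inv]
      exact hx
    · rw [← mul_inv_rev, ← e, inv_inv]
  · intro y hy g hg
    rw [xl_iff] at hy
    have := h3 y⁻¹ hy g⁻¹ (inv_mem hg)
    rw [← mul_inv_rev, cs.length_inv, cs.length_inv, cs.length_inv] at this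
    rw [this, add_comm]
  · intro y y' g g' hy hy' hg hg' h
    rw [xl_iff] at hy hy'
    have e : y⁻¹ * g⁻¹ = y'⁻¹ * g'⁻¹ := by rw [← mul_inv_rev, ← mul_inv_rev, h]
    obtain ⟨a, b⟩ := uniq cs hPA P hy hy' (inv_mem hg) (inv_mem hg') e
    exact ⟨inv_injective a, inv_injective b⟩
  · intro Q y z hPQ hy hz hz'
    rw [xl_iff] at hy hz' ⊢
    rw [mul_inv_rev]
    exact trans cs hPA hPQ hy (inv_mem hz) hz'

end Pool.Agent.Helper87.AM
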